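import Pool.Agent.W345.GK.Gau

/-!
# GK-C1: basic facts on Carlitz polynomials
-/

set_option autoImplicit false

open Polynomial Finset

namespace Pool.Agent.W160.GK.C1

open Pool.Agent.W345.GK

section
variable (k : Type) [Field k] [Fintype k]

/-- the coefficients of `C_(T^n)` -/
noncomputable def cc : ℕ → ℕ → k[X]
  | 0, 0 => 1
  | 0, _ + 1 => 0
  | n + 1, 0 => X * cc n 0
  | n + 1, i + 1 => X * cc n (i + 1) + (cc n i) ^ Fintype.card k

theorem cc_zero (n : ℕ) : cc k n 0 = X ^ n := by
  induction n with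
  | zero => simp [cc]
  | succ n ih => rw [cc, ih, pow_succ']

theorem cc_gt (n : ℕ) : ∀ i, n < i → cc k n i = 0 := by
  induction n with
  | zero =>
    intro i hi
    obtain ⟨j, rfl⟩ := Nat.exists_eq_succ_of_ne_zero hi.ne'
    rw [Nat.succ_eq_add_one, cc]
  | succ n ih =>
    intro i hi
    obtain ⟨j, rfl⟩ := Nat.exists_eq_succ_of_ne_zero (by omega : i ≠ 0)
    rw [Nat.succ_eq_add_one, cc, ih (j + 1) (by omega), ih j (by omega), mul_zero, zero_add,
      zero_pow Fintype.card_ne_zero]

theorem cc_self (n : ℕ) : cc k n n = 1 := by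
  induction n with
  | zero => rw [cc]
  | succ n ih => rw [cc, cc_gt k n (n + 1) (by omega), ih, mul_zero, zero_add, one_pow]

/-- the Frobenius is a homomorphism of algebras -/
theorem fr {R : Type} [CommRing R] [Algebra k R] (x : R) :
    FiniteField.frobeniusAlgHom k R x = x ^ Fintype.card k := rfl

theorem cc_rec (n : ℕ) : ∀ i, (X ^ (Fintype.card k ^ (i + 1)) - X) * cc k n (i + 1) =
    (cc k n i) ^ Fintype.card k - cc k n i := by
  induction n with
  | zero =>
    intro i
    cases i with
    | zero => simp [cc]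
    | succ i => rw [cc, cc, zero_pow Fintype.card_ne_zero]; simp
  | succ n ih =>
    intro i
    cases i with
    | zero =>
      have h := ih 0
      rw [cc, cc, mul_pow]
      simp only [zero_add, pow_one] at h ⊢
      linear_combination X * h
    | succ j =>
      have h := ih (j + 1)
      have h' := ih j
      have h2 : ((X ^ (Fintype.card k ^ (j + 1)) - X) * cc k n (j + 1)) ^ Fintype.card k =
          ((cc k n j) ^ Fintype.card k - cc k n j) ^ Fintype.card k := by rw [h']
      rw [← fr k, ← fr k (_ ^ _ - _), map_mul, map_sub, map_sub, fr, fr, fr, fr, fr, ← pow_mul,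
        ← pow_succ] at h2
      have h3 : (cc k (n + 1) (j + 1)) ^ Fintype.card k =
          X ^ Fintype.card k * (cc k n (j + 1)) ^ Fintype.card k +
            ((cc k n j) ^ Fintype.card k) ^ Fintype.card k := by
        rw [cc, ← fr k (_ + _), map_add, map_mul, fr, fr, fr]
      rw [h3]
      rw [cc, cc]
      linear_combination X * h + h2

theorem carP_eq (n : ℕ) : ∀ N, n ≤ N → carP k n =
    ∑ i ∈ range (N + 1), C (cc k n i) * X ^ (Fintype.card k ^ i) := by
  induction n with
  | zero =>
    intro N _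
    rw [Finset.sum_range_succ', Finset.sum_eq_zero]
    · rw [carP, cc, pow_zero, pow_one, C_1, one_mul, zero_add]
    · intro i _
      rw [cc, C_0, zero_mul]
  | succ n ih =>
    intro N hN
    obtain ⟨M, rfl⟩ := Nat.exists_eq_succ_of_ne_zero (by omega : N ≠ 0)
    have h1 : carP k (n + 1) = C (X : k[X]) * carP k n + (carP k n) ^ Fintype.card k := by
      rw [carP, carT, add_comp, mul_comp, C_comp, X_comp, pow_comp, X_comp]
    have h2 : (carP k n) ^ Fintype.card k = ∑ i ∈ range (M + 1),
        C ((cc k n i) ^ Fintype.card k) * X ^ (Fintype.card k ^ (i + 1)) := by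
      rw [← fr k (carP k n), ih M (by omega), map_sum]
      refine Finset.sum_congr rfl fun i _ => ?_
      rw [map_mul, fr, fr, ← pow_mul, ← pow_succ, C_pow]
    have h3 : C (X : k[X]) * carP k n = (∑ i ∈ range (M + 1),
        C (X * cc k n (i + 1)) * X ^ (Fintype.card k ^ (i + 1))) +
          C (X * cc k n 0) * X ^ (Fintype.card k ^ 0) := by
      have e1 := ih (M + 1) (by omega)
      rw [Finset.sum_range_succ'] at e1
      rw [e1, mul_add, Finset.mul_sum]
      refine congrArg₂ (· + ·) (Finset.sum_congr rfl fun i _ => ?_) ?_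
      · rw [C_mul, mul_assoc]
      · rw [C_mul, mul_assoc]
    have h4 : ∑ i ∈ range (M + 1 + 1), C (cc k (n + 1) i) * X ^ (Fintype.card k ^ i) =
        (∑ i ∈ range (M + 1), C (cc k (n + 1) (i + 1)) * X ^ (Fintype.card k ^ (i + 1))) +
          C (cc k (n + 1) 0) * X ^ (Fintype.card k ^ 0) := Finset.sum_range_succ' _ (M + 1)
    have h5 : ∑ i ∈ range (M + 1), C (cc k (n + 1) (i + 1)) * X ^ (Fintype.card k ^ (i + 1)) =
        (∑ i ∈ range (M + 1), C (X * cc k n (i + 1)) * X ^ (Fintype.card k ^ (i + 1))) +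
        ∑ i ∈ range (M + 1), C ((cc k n i) ^ Fintype.card k) *
          X ^ (Fintype.card k ^ (i + 1)) := by
      rw [← Finset.sum_add_distrib]
      refine Finset.sum_congr rfl fun i _ => ?_
      rw [cc, C_add, add_mul]
    rw [Nat.succ_eq_add_one, h1, h2, h3, h4, h5, cc]
    exact add_right_comm _ _ _

theorem carP_coeff (n i : ℕ) : (carP k n).coeff (Fintype.card k ^ i) = cc k n i := by
  have hq : 1 < Fintype.card k := Fintype.one_lt_card
  rw [carP_eq k n (n + i) (by omega), finsetSum_coeff,
    Finset.sum_eq_single i]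
  · rw [coeff_C_mul, coeff_X_pow, if_pos rfl, mul_one]
  · intro j _ hj
    rw [coeff_C_mul, coeff_X_pow, if_neg, mul_zero]
    intro h
    exact hj (Nat.pow_right_injective hq h).symm
  · intro h
    exact absurd (Finset.mem_range.mpr (by omega)) h

variable {k}

theorem br_eq (a : k[X]) (i : ℕ) :
    br a i = ∑ n ∈ range (a.natDegree + 1), C (a.coeff n) * cc k n i := by
  rw [br, car, finsetSum_coeff]
  refine Finset.sum_congr rfl fun n _ => ?_
  rw [coeff_C_mul, carP_coeff]

theorem br_frob (a : k[X]) (i : ℕ) : (br a i) ^ Fintype.card k =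
    ∑ n ∈ range (a.natDegree + 1), C (a.coeff n) * (cc k n i) ^ Fintype.card k := by
  rw [← fr k (br a i), br_eq, map_sum]
  refine Finset.sum_congr rfl fun n _ => ?_
  rw [← smul_eq_C_mul, map_smul, fr, smul_eq_C_mul]

theorem aeval_carP {S : Type} [CommRing S] [Algebra k[X] S] (L : k[X] → S)
    (h : ∀ a : k[X], L (X * a) = algebraMap k[X] S X * L a + (L a) ^ Fintype.card k)
    (b : k[X]) (n : ℕ) : aeval (L b) (carP k n) = L (X ^ n * b) := by
  induction n with
  | zero => rw [carP, aeval_X, pow_zero, one_mul]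
  | succ n ih =>
    have h1 : carP k (n + 1) = C (X : k[X]) * carP k n + (carP k n) ^ Fintype.card k := by
      rw [carP, carT, add_comp, mul_comp, C_comp, X_comp, pow_comp, X_comp]
    rw [h1, map_add, map_mul, map_pow, aeval_C, ih, ← h, pow_succ', mul_assoc]

end

theorem c1 : S_C1 := by
  intro k _ _
  refine ⟨fun a => ?_, fun a => ?_, fun a i => ?_, fun a ha => ?_, ?_⟩
  · have h1 : car a = ∑ n ∈ range (a.natDegree + 1), ∑ i ∈ range (a.natDegree + 1),
        C (C (a.coeff n) * cc k n i) * X ^ (Fintype.card k ^ i) := by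
      rw [car]
      refine Finset.sum_congr rfl fun n hn => ?_
      rw [carP_eq k n a.natDegree (by have := Finset.mem_range.mp hn; omega), Finset.mul_sum]
      refine Finset.sum_congr rfl fun i _ => ?_
      rw [C_mul, mul_assoc]
    rw [h1, Finset.sum_comm]
    refine Finset.sum_congr rfl fun i _ => ?_
    rw [br_eq, map_sum, Finset.sum_mul]
  · rw [br_eq]
    simp only [cc_zero]
    exact (as_sum_range_C_mul_X_pow a).symm
  · rw [br_frob, br_eq, br_eq, Finset.mul_sum, ← Finset.sum_sub_distrib]
    refine Finset.sum_congr rfl fun n _ => ?_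
    rw [← mul_sub, ← cc_rec]
    ring
  · rw [br_eq, Finset.sum_range_succ, Finset.sum_eq_zero, zero_add, cc_self, mul_one,
      ha.coeff_natDegree, C_1]
    intro n hn
    rw [cc_gt k n _ (Finset.mem_range.mp hn), mul_zero]
  · intro S _ _ L hadd hC hX a b
    obtain ⟨M, hM⟩ : ∃ M : k[X] →+ S, ∀ x, M x = L x := ⟨AddMonoidHom.mk' L hadd, fun _ => rfl⟩
    have h2 : a * b = ∑ n ∈ range (a.natDegree + 1), C (a.coeff n) * (X ^ n * b) := by
      conv_lhs => rw [as_sum_range_C_mul_X_pow a, Finset.sum_mul]
      exact Finset.sum_congr rfl fun n _ => mul_assoc _ _ _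
    rw [← hM, h2, map_sum, car, map_sum]
    refine Finset.sum_congr rfl fun n _ => ?_
    rw [hM, hC, map_mul, aeval_C, aeval_carP L hX]

end Pool.Agent.W160.GK.C1
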