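import Pool.Agent.W345.GK.TF

set_option autoImplicit false

/-!
# The operator `UM` in the coordinates `e`
-/

namespace Pool.Agent.W160.GK

open Pool.Agent.W345.GK MvPolynomial

/-- the substitution as a homomorphism of algebras -/
noncomputable def eh (L : Type) [CommRing L] (n : ℕ) :
    MvPolynomial (Fin n) L →ₐ[L] MvPolynomial (Fin n) L :=
  (symmetricSubalgebra (Fin n) L).val.comp (esymmAlgHom (Fin n) L n)

theorem ee_eq {L : Type} [CommRing L] {n : ℕ} (f : MvPolynomial (Fin n) L) :
    ee f = eh L n f := rfl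

theorem eh_X {L : Type} [CommRing L] {n : ℕ} (i : Fin n) :
    eh L n (X i) = esymm (Fin n) L (i + 1) := by
  unfold eh
  rw [AlgHom.comp_apply, esymmAlgHom, aeval_X]
  rfl

/-- Frobenius on elementary symmetric polynomials -/
theorem esymm_pow {L : Type} [Field L] {n : ℕ} (p r j : ℕ) [Fact p.Prime] [CharP L p] :
    (esymm (Fin n) L j) ^ p ^ r = expand (p ^ r) (esymm (Fin n) L j) := by
  unfold esymm
  rw [map_sum, sum_pow_char_pow p r]
  refine Finset.sum_congr rfl fun t _ => ?_
  rw [map_prod, ← Finset.prod_pow]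
  exact Finset.prod_congr rfl fun i _ => (expand_X _ i).symm

theorem eh_expand {L : Type} [Field L] {n : ℕ} (p r : ℕ) [Fact p.Prime] [CharP L p]
    (f : MvPolynomial (Fin n) L) : eh L n (expand (p ^ r) f) = expand (p ^ r) (eh L n f) := by
  have : (eh L n).comp (expand (p ^ r)) = (expand (p ^ r)).comp (eh L n) := by
    refine MvPolynomial.algHom_ext fun i => ?_
    rw [AlgHom.comp_apply, AlgHom.comp_apply, expand_X, map_pow, eh_X, esymm_pow]
  exact DFunLike.congr_fun this f

/-- `UM` of a small monomial -/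
theorem um_small (h2 : S_TA2) {L : Type} [Field L] {q : ℕ} (hq : 0 < q) {n : ℕ}
    (α : Fin n →₀ ℕ) (hα : ∀ i, α i ≤ q - 1) :
    ((∀ i, α i = q - 1) → UM q (monomial α (1 : L)) = 1) ∧
    ((¬ ∀ i, α i = q - 1) → UM q (monomial α (1 : L)) = 0) := by
  classical
  obtain ⟨hc, -, -, -⟩ := h2 L q hq n
  constructor
  · intro h
    ext t
    rw [hc, coeff_monomial, coeff_one]
    by_cases ht : 0 = t
    · rw [if_pos ht, if_pos]
      subst ht
      ext i
      rw [h i]
      simp [up]
    · rw [if_neg ht, if_neg]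
      intro h'
      apply ht
      ext i
      have h3 := DFunLike.congr_fun h' i
      rw [h i] at h3
      simp only [up, Finsupp.equivFunOnFinite_symm_apply_apply] at h3
      have h4 : q * t i = 0 := by omega
      rcases Nat.mul_eq_zero.1 h4 with h5 | h5
      · omega
      · simpa using h5.symm
  · intro h
    ext t
    rw [hc, coeff_monomial, coeff_zero, if_neg]
    intro h'
    apply h
    intro i
    have h3 := DFunLike.congr_fun h' i
    simp only [up, Finsupp.equivFunOnFinite_symm_apply_apply] at h3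
    have h4 := hα i
    omega

theorem ta7 : S_TA2 → S_TA6 → S_TA7 := by
  intro h2 h6 k L _ _ _ _ n f
  classical
  obtain ⟨q, hqdef⟩ : ∃ q, q = Fintype.card k := ⟨_, rfl⟩
  have hq : 0 < q := by rw [hqdef]; exact Fintype.card_pos
  rw [← hqdef]
  obtain ⟨hc, hadd, hsmul, hexp⟩ := h2 L q hq n
  -- characteristic
  obtain ⟨p, hp⟩ := CharP.exists k
  obtain ⟨r, hpp, hr⟩ := FiniteField.card k p
  have hfp : Fact p.Prime := ⟨hpp⟩
  have hL : CharP L p := charP_of_injective_algebraMap (algebraMap k L).injective p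
  have hqp : q = p ^ (r : ℕ) := by rw [hqdef, hr]
  have hee : ∀ g : MvPolynomial (Fin n) L, ee (expand q g) = expand q (ee g) := by
    intro g
    rw [hqp, ee_eq, ee_eq]
    exact eh_expand p r g
  have heemul : ∀ g h : MvPolynomial (Fin n) L, ee (g * h) = ee g * ee h := by
    intro g h
    rw [ee_eq, ee_eq, ee_eq, map_mul]
  have hmono : ∀ s : Fin n →₀ ℕ, UM q (DD L n * ee (monomial s (1 : L))) =
      DD L n * ee (UM q (monomial s (1 : L))) := by
    intro s
    obtain ⟨t, ht⟩ : ∃ t : Fin n →₀ ℕ, ∀ i, t i = s i / q :=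
      ⟨Finsupp.equivFunOnFinite.symm fun i => s i / q, fun i => rfl⟩
    obtain ⟨α, hα⟩ : ∃ α : Fin n →₀ ℕ, ∀ i, α i = s i % q :=
      ⟨Finsupp.equivFunOnFinite.symm fun i => s i % q, fun i => rfl⟩
    have hαle : ∀ i, α i ≤ q - 1 := by
      intro i
      rw [hα]
      have := Nat.mod_lt (s i) hq
      omega
    have hs : monomial s (1 : L) = expand q (monomial t (1 : L)) * monomial α 1 := by
      have hst : s = q • t + α := by
        ext i
        rw [Finsupp.add_apply, Finsupp.smul_apply, smul_eq_mul, ht, hα]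
        exact (Nat.div_add_mod _ _).symm
      rw [expand_monomial, monomial_mul, one_mul, ← hst]
    have e1 : DD L n * ee (monomial s (1 : L)) =
        expand q (ee (monomial t (1 : L))) * (DD L n * ee (monomial α (1 : L))) := by
      rw [hs, heemul, hee]
      ring
    have e2 : UM q (monomial s (1 : L)) = monomial t 1 * UM q (monomial α (1 : L)) := by
      rw [hs, hexp]
    rw [e1, hexp, h6 L q hq n α hαle, e2, heemul]
    by_cases hall : ∀ i, α i = q - 1
    · rw [if_pos hall, (um_small h2 hq α hαle).1 hall]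
      have : ee (1 : MvPolynomial (Fin n) L) = 1 := by rw [ee_eq, map_one]
      rw [this]
      ring
    · rw [if_neg hall, (um_small h2 hq α hαle).2 hall]
      have : ee (0 : MvPolynomial (Fin n) L) = 0 := by rw [ee_eq, map_zero]
      rw [this]
      ring
  induction f using MvPolynomial.induction_on' with
  | monomial s a =>
    have e : monomial s a = a • monomial s (1 : L) := by
      rw [smul_monomial, smul_eq_mul, mul_one]
    have e1 : ee (a • monomial s (1 : L)) = a • ee (monomial s (1 : L)) := by
      rw [ee_eq, ee_eq, map_smul]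
    have e2 : ee (a • UM q (monomial s (1 : L))) = a • ee (UM q (monomial s (1 : L))) := by
      rw [ee_eq, ee_eq, map_smul]
    rw [e, e1, mul_smul_comm, hsmul, hmono, hsmul, e2, mul_smul_comm]
  | add f g hf hg =>
    have e1 : ee (f + g) = ee f + ee g := by rw [ee_eq, ee_eq, ee_eq, map_add]
    have e2 : ee (UM q f + UM q g) = ee (UM q f) + ee (UM q g) := by
      rw [ee_eq, ee_eq, ee_eq, map_add]
    rw [e1, mul_add, hadd, hf, hg, hadd, e2, mul_add]

end Pool.Agent.W160.GK
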